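import Mathlib

/-!
# MP_08c285_gt : normality of the ballean of small subsets of a group forces regularity
-/

set_option autoImplicit false

open Cardinal Ordinal Set

universe u

namespace Pool.Agent.Results.MP_08c285_gt.NormalRegular

/-- The entourages: subsets of `E_A = {(x, y) : y ∈ x A}` for `A = A⁻¹ ∋ e` with `|A| < |G|`. -/
def entourages (G : Type u) [Group G] : Set (Set (G × G)) :=
  {E | ∃ A : Set G, #A < #G ∧ 1 ∈ A ∧ A⁻¹ = A ∧ ∀ x y, (x, y) ∈ E → ∃ a ∈ A, y = x * a}

/-- `E[S] = {y : ∃ x ∈ S, (x, y) ∈ E}`. -/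
def image {G : Type u} (E : Set (G × G)) (S : Set G) : Set G := {y | ∃ x ∈ S, (x, y) ∈ E}

/-- Asymptotic disjointness. -/
def AsympDisjoint {G : Type u} [Group G] (P Q : Set G) : Prop :=
  ∀ E ∈ entourages G, #(image E P ∩ image E Q : Set G) < #G

/-- `U` is an asymptotic neighbourhood of `P`. -/
def AsympNhd {G : Type u} [Group G] (U P : Set G) : Prop :=
  ∀ E ∈ entourages G, #(image E P \ U : Set G) < #G

/-- Normality of the ballean. -/
def IsNormalBallean (G : Type u) [Group G] : Prop :=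
  ∀ P Q : Set G, AsympDisjoint P Q →
    ∃ U V : Set G, AsympNhd U P ∧ AsympNhd V Q ∧ AsympDisjoint U V

/-! ### recursion -/

lemma exists_rec {I : Type u} [LinearOrder I] [WellFoundedLT I] {T : Type u}
    (R : ∀ i : I, (Iio i → T) → T → Prop) (h : ∀ i f, ∃ t, R i f t) :
    ∃ g : I → T, ∀ i, R i (fun j => g j.1) (g i) := by
  classical
  let F : ∀ i : I, (∀ j, j < i → T) → T := fun i f => (h i (fun j => f j.1 j.2)).choose
  let g : I → T := (wellFounded_lt (α := I)).fix F
  refine ⟨g, fun i => ?_⟩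
  have hg : g i = F i (fun j _ => g j) := (wellFounded_lt (α := I)).fix_eq F i
  rw [hg]
  exact (h i (fun j => g j.1)).choose_spec

lemma exists_avoid {G : Type u} {S : Set G} (h : #S < #G) : ∃ g, g ∉ S := by
  by_contra hcon
  push Not at hcon
  have : S = Set.univ := eq_univ_of_forall hcon
  rw [this, mk_univ] at h
  exact lt_irrefl _ h

section

variable {G : Type u} [Group G]

omit [Group G] in
lemma range_lt {T : Type u} (f : T → G) (h : #T < #G) : #(range f) < #G :=
  mk_range_le.trans_lt h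

/-- Two injective families with distinct products. -/
lemma exists_xy {I : Type u} [LinearOrder I] [WellFoundedLT I] (hG : ℵ₀ ≤ #G)
    (hI : ∀ i : I, #(Iio i) < #G) :
    ∃ x y : I → G, Function.Injective (fun p : I × I => x p.1 * y p.2) := by
  classical
  have hopt : ∀ i : I, #(Option (Iio i)) < #G := by
    intro i
    rw [mk_option]
    exact add_lt_of_lt hG (hI i) (one_lt_aleph0.trans_le hG)
  obtain ⟨g, hg⟩ := exists_rec (I := I) (T := G × G)
    (fun i f t => (∀ a b c : Iio i, t.1 ≠ (f a).1 * (f b).2 * ((f c).2)⁻¹) ∧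
      ∀ (a b : Option (Iio i)) (c : Iio i),
        t.2 ≠ ((a.elim t.1 fun j => (f j).1))⁻¹ * (b.elim t.1 fun j => (f j).1) * (f c).2) (by
    intro i f
    have h3 : #(Iio i × Iio i × Iio i) < #G := by
      rw [mk_prod, mk_prod]
      simp only [Cardinal.lift_id]
      exact mul_lt_of_lt hG (hI i) (mul_lt_of_lt hG (hI i) (hI i))
    obtain ⟨x, hx⟩ := exists_avoid (range_lt
      (fun p : Iio i × Iio i × Iio i => (f p.1).1 * (f p.2.1).2 * ((f p.2.2).2)⁻¹) h3)
    have h4 : #(Option (Iio i) × Option (Iio i) × Iio i) < #G := by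
      rw [mk_prod, mk_prod]
      simp only [Cardinal.lift_id]
      exact mul_lt_of_lt hG (hopt i) (mul_lt_of_lt hG (hopt i) (hI i))
    obtain ⟨y, hy⟩ := exists_avoid (range_lt
      (fun p : Option (Iio i) × Option (Iio i) × Iio i =>
        ((p.1.elim x fun j => (f j).1))⁻¹ * (p.2.1.elim x fun j => (f j).1) * (f p.2.2).2) h4)
    refine ⟨(x, y), fun a b c h => hx ⟨(a, b, c), h.symm⟩, fun a b c h => hy ⟨(a, b, c), h.symm⟩⟩)
  refine ⟨fun i => (g i).1, fun i => (g i).2, ?_⟩
  -- basic facts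
  have hx : ∀ i a b c : I, a < i → b < i → c < i → (g i).1 ≠ (g a).1 * (g b).2 * ((g c).2)⁻¹ :=
    fun i a b c ha hb hc => (hg i).1 ⟨a, ha⟩ ⟨b, hb⟩ ⟨c, hc⟩
  have hy : ∀ i a b c : I, a ≤ i → b ≤ i → c < i → (g i).2 ≠ ((g a).1)⁻¹ * (g b).1 * (g c).2 := by
    intro i a b c ha hb hc
    have h := (hg i).2
    rcases ha.lt_or_eq with ha | rfl <;> rcases hb.lt_or_eq with hb | rfl
    · exact h (some ⟨a, ha⟩) (some ⟨b, hb⟩) ⟨c, hc⟩
    · exact h (some ⟨a, ha⟩) none ⟨c, hc⟩
    · exact h none (some ⟨b, hb⟩) ⟨c, hc⟩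
    · exact h none none ⟨c, hc⟩
  have hxinj : ∀ i k : I, (g i).1 = (g k).1 → i = k := by
    intro i k h
    rcases lt_trichotomy i k with hik | hik | hik
    · exact absurd (by rw [mul_inv_cancel_right]; exact h.symm) (hx k i i i hik hik hik)
    · exact hik
    · exact absurd (by rw [mul_inv_cancel_right]; exact h) (hx i k k k hik hik hik)
  have key : ∀ i j k l : I, l < j → (g i).1 * (g j).2 ≠ (g k).1 * (g l).2 := by
    intro i j k l hlj h
    by_cases h1 : i ≤ j ∧ k ≤ j
    · exact hy j i k l h1.1 h1.2 hlj (by rw [mul_assoc, ← h, inv_mul_cancel_left])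
    · rcases lt_trichotomy i k with hik | hik | hik
      · have hjk : j < k := by
          by_contra hcon
          push Not at hcon
          exact h1 ⟨hik.le.trans hcon, hcon⟩
        exact hx k i j l hik hjk (hlj.trans hjk) (by rw [h, mul_inv_cancel_right])
      · subst hik
        have h2 : (g j).2 = (g l).2 := mul_left_cancel h
        exact hy j j j l le_rfl le_rfl hlj (by rw [inv_mul_cancel, one_mul, h2])
      · have hji : j < i := by
          by_contra hcon
          push Not at hcon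
          exact h1 ⟨hcon, hik.le.trans hcon⟩
        exact hx i k l j hik (hlj.trans hji) hji (by rw [← h, mul_inv_cancel_right])
  rintro ⟨i, j⟩ ⟨k, l⟩ h
  simp only at h
  rcases lt_trichotomy j l with hjl | hjl | hjl
  · exact absurd h.symm (key k l i j hjl)
  · subst hjl
    rw [hxinj i k (mul_right_cancel h)]
  · exact absurd h (key i j k l hjl)

/-- The elements `r`. -/
lemma exists_r {I : Type u} [LinearOrder I] [WellFoundedLT I] (hG : ℵ₀ ≤ #G)
    (hI : ∀ i : I, #(Iio i) < #G) (a b : I → G) :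
    ∃ r : I → G, Function.Injective r ∧ Function.Injective (fun n => r n * (a n)⁻¹) ∧
      Function.Injective (fun n => r n * b n) ∧
      (∀ n j k l : I, j < n → k < n → l < n →
        (r n * (a n)⁻¹)⁻¹ * (r j * b j) ≠ (r k * (a k)⁻¹)⁻¹ * (r l * b l)) ∧
      (∀ n j k l : I, j < n → k < n → l < n →
        (r j * (a j)⁻¹)⁻¹ * (r n * b n) ≠ (r k * (a k)⁻¹)⁻¹ * (r l * b l)) := by
  classical
  obtain ⟨r, hr⟩ := exists_rec (I := I) (T := G)
    (fun n f t => (∀ j : Iio n, t ≠ f j) ∧
      (∀ j : Iio n, t ≠ f j * (a j)⁻¹ * a n) ∧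
      (∀ j : Iio n, t ≠ f j * b j * (b n)⁻¹) ∧
      (∀ j k l : Iio n, t ≠ (f j * b j) * ((f k * (a k)⁻¹)⁻¹ * (f l * b l))⁻¹ * a n) ∧
      (∀ j k l : Iio n, t ≠ (f j * (a j)⁻¹) * ((f k * (a k)⁻¹)⁻¹ * (f l * b l)) * (b n)⁻¹)) (by
    intro n f
    have h1 : ∀ φ : Iio n → G, #(range φ) < #G := fun φ => range_lt φ (hI n)
    have h3 : ∀ φ : Iio n × Iio n × Iio n → G, #(range φ) < #G := by
      intro φ
      apply range_lt
      rw [mk_prod, mk_prod]
      simp only [Cardinal.lift_id]
      exact mul_lt_of_lt hG (hI n) (mul_lt_of_lt hG (hI n) (hI n))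
    have hun : ∀ S T : Set G, #S < #G → #T < #G → #(S ∪ T : Set G) < #G :=
      fun S T hS hT => (mk_union_le S T).trans_lt (add_lt_of_lt hG hS hT)
    obtain ⟨t, ht⟩ := exists_avoid (hun _ _ (h1 f) (hun _ _ (h1 fun j => f j * (a j)⁻¹ * a n)
      (hun _ _ (h1 fun j => f j * b j * (b n)⁻¹) (hun _ _
        (h3 fun p => (f p.1 * b p.1) * ((f p.2.1 * (a p.2.1)⁻¹)⁻¹ * (f p.2.2 * b p.2.2))⁻¹ * a n)
        (h3 fun p => (f p.1 * (a p.1)⁻¹) * ((f p.2.1 * (a p.2.1)⁻¹)⁻¹ * (f p.2.2 * b p.2.2)) *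
          (b n)⁻¹)))))
    simp only [mem_union, not_or, mem_range, not_exists] at ht
    obtain ⟨t1, t2, t3, t4, t5⟩ := ht
    exact ⟨t, fun j h => t1 j h.symm, fun j h => t2 j h.symm, fun j h => t3 j h.symm,
      fun j k l h => t4 (j, k, l) h.symm, fun j k l h => t5 (j, k, l) h.symm⟩)
  have inj : ∀ φ : I → G, (∀ n j, j < n → φ n ≠ φ j) → Function.Injective φ := by
    intro φ hφ n m h
    rcases lt_trichotomy n m with h1 | h1 | h1
    · exact absurd h.symm (hφ m n h1)
    · exact h1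
    · exact absurd h (hφ n m h1)
  refine ⟨r, inj _ fun n j hj => (hr n).1 ⟨j, hj⟩, inj _ fun n j hj h => ?_,
    inj _ fun n j hj h => ?_, fun n j k l hj hk hl h => ?_, fun n j k l hj hk hl h => ?_⟩
  · refine (hr n).2.1 ⟨j, hj⟩ ?_
    rw [← h, inv_mul_cancel_right]
  · refine (hr n).2.2.1 ⟨j, hj⟩ ?_
    rw [← h, mul_inv_cancel_right]
  · refine (hr n).2.2.2.1 ⟨j, hj⟩ ⟨k, hk⟩ ⟨l, hl⟩ ?_
    simp only
    rw [← h]
    group
  · refine (hr n).2.2.2.2 ⟨j, hj⟩ ⟨k, hk⟩ ⟨l, hl⟩ ?_
    simp only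
    rw [← h]
    group

/-- Basic entourages. -/
def EA (A : Set G) : Set (G × G) := {p | ∃ c ∈ A, p.2 = p.1 * c}

lemma EA_mem (hG : ℵ₀ ≤ #G) {A : Set G} (hA : #A < #G) :
    EA (insert 1 (A ∪ A⁻¹)) ∈ entourages G := by
  refine ⟨insert 1 (A ∪ A⁻¹), ?_, mem_insert _ _, ?_, fun x y h => h⟩
  · have h1 : #(A⁻¹ : Set G) < #G := by
      rw [← Set.image_inv_eq_inv]
      exact mk_image_le.trans_lt hA
    have h2 : #(A ∪ A⁻¹ : Set G) < #G := (mk_union_le _ _).trans_lt (add_lt_of_lt hG hA h1)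
    exact mk_insert_le.trans_lt (add_lt_of_lt hG h2 (one_lt_aleph0.trans_le hG))
  · ext x
    simp only [Set.mem_inv, mem_insert_iff, mem_union, inv_inv, inv_eq_one]
    tauto

omit [Group G] in
lemma Iio_lt (c : Cardinal.{u}) (i : c.ord.ToType) : #(Iio i) < c := by
  simpa using mk_Iio_lt i

/-- For singular `|G|` the exceptional sets are uniformly bounded. -/
lemma uniform (hG : ℵ₀ ≤ #G) (hs : (#G).ord.cof < #G) {U P : Set G} (h : AsympNhd U P) :
    ∃ μ < #G, ∀ c : G, #({g | ∃ p ∈ P, g = p * c} \ U : Set G) ≤ μ := by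
  by_contra hcon
  push Not at hcon
  let I := (#G).ord.ToType
  obtain ⟨s, hs1, hs2'⟩ := Order.exists_cof_eq I
  have hs2 : #s = (#G).ord.cof := hs2'.trans (Ordinal.cof_toType _)
  have hlt : ∀ i : I, #(Iio i) < #G := Iio_lt (#G)
  choose c hc using fun i : I => hcon _ (hlt i)
  set A : Set G := c '' s with hA
  have hAlt : #A < #G := mk_image_le.trans_lt (by rw [hs2]; exact hs)
  have h1 := h _ (EA_mem hG hAlt)
  set ν := #(image (EA (insert 1 (A ∪ A⁻¹))) P \ U : Set G) with hν
  obtain ⟨j, hj⟩ := typein_surj (α := I) (· < ·) (o := ν.ord) (by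
    have h7 : ν.ord < (#G).ord := ord_lt_ord.2 h1
    exact h7.trans_eq (type_toType _).symm)
  obtain ⟨i, hi, hji⟩ := hs1 j
  have h2 : ν ≤ #(Iio i) := by
    have h3 : #(Iio j) = ν := by
      have h4 : (type (α := Iio j) LT.lt).card = (typein (α := I) LT.lt j).card := by
        congr 1
      rw [card_type] at h4
      rw [h4]
      change (typein (α := I) (· < ·) j).card = ν
      rw [hj, card_ord]
    rw [← h3]
    exact mk_le_mk_of_subset (Iio_subset_Iio hji)
  have h5 := hc i
  have h6 : ({g | ∃ p ∈ P, g = p * c i} \ U : Set G) ⊆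
      image (EA (insert 1 (A ∪ A⁻¹))) P \ U := by
    rintro g ⟨⟨p, hp, rfl⟩, hU⟩
    exact ⟨⟨p, hp, c i, Or.inr (Or.inl ⟨i, hi, rfl⟩), rfl⟩, hU⟩
  exact absurd (h5.trans_le (mk_le_mk_of_subset h6)) (not_lt.2 h2)

/-- **MP_08c285_gt, Q1 is true.** -/
theorem result : ∀ (G : Type u) [Group G], ℵ₀ ≤ #G → IsNormalBallean G → (#G).IsRegular := by
  classical
  intro G _ hG hnorm
  by_contra hreg
  have hsing : (#G).IsSingular := IsSingular.of_not_isRegular hG hreg
  have hs := hsing.cof_ord_lt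
  let I := (#G).ord.ToType
  have hIc : #I = #G := mk_ord_toType _
  have hlt : ∀ i : I, #(Iio i) < #G := Iio_lt (#G)
  obtain ⟨x, y, hxy⟩ := exists_xy (I := I) hG hlt
  -- enumeration of pairs
  have hsq : #I = #(I × I) := by
    rw [mk_prod]; simp only [Cardinal.lift_id]
    rw [hIc, mul_eq_self hG]
  obtain ⟨e⟩ := Cardinal.eq.1 hsq
  obtain ⟨r, hr, hp, hq, h2, h3⟩ := exists_r (I := I) hG hlt (fun n => x (e n).1)
    (fun n => y (e n).2)
  set p : I → G := fun n => r n * (x (e n).1)⁻¹ with hpdef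
  set q : I → G := fun n => r n * y (e n).2 with hqdef
  have hdiag : ∀ n, (p n)⁻¹ * q n = x (e n).1 * y (e n).2 := by
    intro n; simp only [hpdef, hqdef]; group
  -- fibres
  have hfib : ∀ D : Set G, #D < #G → #{z : I × I | (p z.1)⁻¹ * q z.2 ∈ D} < #G := by
    intro D hD
    let φ : {z : I × I | (p z.1)⁻¹ * q z.2 ∈ D} → D × ULift.{u} (Fin 3) := fun z =>
      (⟨(p z.1.1)⁻¹ * q z.1.2, z.2⟩,
        ⟨if z.1.1 = z.1.2 then 0 else if z.1.2 < z.1.1 then 1 else 2⟩)
    have hφ : Function.Injective φ := by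
      rintro ⟨⟨m, n⟩, hmn⟩ ⟨⟨k, l⟩, hkl⟩ heq
      simp only [φ, Prod.mk.injEq, Subtype.mk.injEq, ULift.up.injEq] at heq
      obtain ⟨e1, e2⟩ := heq
      have hmax : ∀ m n k l : I, m ≠ n → (p m)⁻¹ * q n = (p k)⁻¹ * q l →
          ¬ max k l < max m n := by
        intro m n k l hne heq hmx
        have hk := (le_max_left k l).trans_lt hmx
        have hl := (le_max_right k l).trans_lt hmx
        rcases lt_or_gt_of_ne hne with hlt' | hlt'
        · rw [max_eq_right hlt'.le] at hk hl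
          exact h3 n m k l hlt' hk hl heq
        · rw [max_eq_left hlt'.le] at hk hl
          exact h2 m n k l hlt' hk hl heq
      by_cases hmn' : m = n
      · by_cases hkl' : k = l
        · subst hmn' hkl'
          rw [hdiag, hdiag] at e1
          have h5 : e m = e k := by
            apply hxy
            exact e1
          exact Subtype.ext (Prod.ext (e.injective h5) (e.injective h5))
        · rw [if_pos hmn', if_neg hkl'] at e2
          split_ifs at e2 <;> exact absurd e2 (by decide)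
      · by_cases hkl' : k = l
        · rw [if_neg hmn', if_pos hkl'] at e2
          split_ifs at e2 <;> exact absurd e2 (by decide)
        · rw [if_neg hmn', if_neg hkl'] at e2
          have hM : max m n = max k l :=
            le_antisymm (not_lt.1 (hmax m n k l hmn' e1)) (not_lt.1 (hmax k l m n hkl' e1.symm))
          by_cases h5 : n < m
          · by_cases h6 : l < k
            · rw [max_eq_left h5.le, max_eq_left h6.le] at hM
              subst hM
              exact Subtype.ext (Prod.ext rfl (hq (mul_left_cancel e1)))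
            · rw [if_pos h5, if_neg h6] at e2
              exact absurd e2 (by decide)
          · by_cases h6 : l < k
            · rw [if_neg h5, if_pos h6] at e2
              exact absurd e2 (by decide)
            · rw [max_eq_right (not_lt.1 h5), max_eq_right (not_lt.1 h6)] at hM
              subst hM
              exact Subtype.ext (Prod.ext (hp (inv_injective (mul_right_cancel e1))) rfl)
    refine (mk_le_of_injective hφ).trans_lt ?_
    rw [mk_prod, Cardinal.lift_id, Cardinal.lift_id, mk_uLift, mk_fin, Cardinal.lift_natCast]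
    exact mul_lt_of_lt hG hD (natCast_lt_aleph0.trans_le hG)
  -- asymptotic disjointness
  have hdisj : AsympDisjoint (range p) (range q) := by
    rintro E ⟨A, hA, -, -, hE⟩
    have hD : #(range fun c : A × A => (c.1 : G) * (c.2 : G)⁻¹) < #G := by
      apply range_lt
      rw [mk_prod]
      simp only [Cardinal.lift_id]
      exact mul_lt_of_lt hG hA hA
    have h5 := hfib _ hD
    have hsub : image E (range p) ∩ image E (range q) ⊆ range
        (fun w : {z : I × I | (p z.1)⁻¹ * q z.2 ∈ range fun c : A × A => (c.1 : G) * (c.2 : G)⁻¹}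
          × A => p w.1.1.1 * (w.2 : G)) := by
      rintro g ⟨⟨_, ⟨m, rfl⟩, h6⟩, ⟨_, ⟨n, rfl⟩, h7⟩⟩
      obtain ⟨c, hc, hgc⟩ := hE _ _ h6
      obtain ⟨d, hd, hgd⟩ := hE _ _ h7
      refine ⟨⟨⟨(m, n), ⟨(⟨c, hc⟩, ⟨d, hd⟩), ?_⟩⟩, ⟨c, hc⟩⟩, hgc.symm⟩
      simp only
      have h8 : q n = p m * c * d⁻¹ := by rw [← hgc, hgd, mul_inv_cancel_right]
      rw [h8]
      group
    refine (mk_le_mk_of_subset hsub).trans_lt (range_lt _ ?_)
    rw [mk_prod]
    simp only [Cardinal.lift_id]
    exact mul_lt_of_lt hG h5 hA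
  obtain ⟨U, V, hU, hV, hUV⟩ := hnorm _ _ hdisj
  obtain ⟨μ, hμ, hμ'⟩ := uniform hG hs hU
  obtain ⟨ν, hν, hν'⟩ := uniform hG hs hV
  -- the size of the rectangle
  set κ := max (max μ ν) ℵ₀ with hκ
  have haleph : ℵ₀ < #G := by
    refine lt_of_le_of_ne hG fun h => ?_
    rw [← h] at hreg
    exact hreg isRegular_aleph0
  have hκlt : κ < #G := max_lt (max_lt hμ hν) haleph
  have hδ : Order.succ κ < #G := hsing.isSuccLimit.succ_lt hκlt
  obtain ⟨R, hR⟩ : ∃ R : Set I, #R = Order.succ κ := by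
    apply le_mk_iff_exists_set.1
    rw [hIc]; exact hδ.le
  -- rows
  have hrow : ∀ i : I, #{j : I | r (e.symm (i, j)) ∉ U} ≤ κ := by
    intro i
    have hinj : Function.Injective (fun j : {j : I | r (e.symm (i, j)) ∉ U} =>
        (⟨r (e.symm (i, j.1)), ⟨⟨p (e.symm (i, j.1)), ⟨_, rfl⟩, by
          simp [hpdef]⟩, j.2⟩⟩ : ({g | ∃ z ∈ range p, g = z * x i} \ U : Set G))) := by
      intro j j' h
      have h7 := hr (congrArg Subtype.val h)
      have h8 := e.symm.injective h7
      exact Subtype.ext (Prod.mk.inj h8).2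
    exact (mk_le_of_injective hinj).trans ((hμ' (x i)).trans
      ((le_max_left _ _).trans (le_max_left _ _)))
  have hcol : ∀ j : I, #{i : I | r (e.symm (i, j)) ∉ V} ≤ κ := by
    intro j
    have hinj : Function.Injective (fun i : {i : I | r (e.symm (i, j)) ∉ V} =>
        (⟨r (e.symm (i.1, j)), ⟨⟨q (e.symm (i.1, j)), ⟨_, rfl⟩, by
          simp [hqdef]⟩, i.2⟩⟩ : ({g | ∃ z ∈ range q, g = z * (y j)⁻¹} \ V : Set G))) := by
      intro i i' h
      have h7 := hr (congrArg Subtype.val h)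
      have h8 := e.symm.injective h7
      exact Subtype.ext (Prod.mk.inj h8).1
    exact (mk_le_of_injective hinj).trans ((hν' (y j)⁻¹).trans
      ((le_max_right _ _).trans (le_max_left _ _)))
  -- bad columns
  have hbad : #(⋃ i : R, {j : I | r (e.symm ((i : I), j)) ∉ U} : Set I) < #I := by
    refine (mk_iUnion_le_sum_mk.trans (sum_le_sum _ (fun _ : R => κ)
      (fun i : R => hrow (i : I)))).trans_lt ?_
    rw [sum_const, Cardinal.lift_id, Cardinal.lift_id, hR, hIc]
    exact mul_lt_of_lt hG hδ hκlt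
  have : Infinite I := by
    rw [infinite_iff, hIc]; exact hG
  have hgood := mk_compl_of_infinite _ hbad
  -- for a good column there is a row in `R` with entry in `U ∩ V`
  have hex : ∀ j : ((⋃ i : R, {j : I | r (e.symm ((i : I), j)) ∉ U} : Set I)ᶜ : Set I),
      ∃ i : I, r (e.symm (i, j.1)) ∈ U ∩ V := by
    rintro ⟨j, hj⟩
    simp only [mem_compl_iff, mem_iUnion, not_exists, mem_ofPred_eq, not_not] at hj
    by_contra hcon
    push Not at hcon
    have hsub : R ⊆ {i : I | r (e.symm (i, j)) ∉ V} := by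
      intro i hi hiV
      exact hcon i ⟨hj ⟨i, hi⟩, hiV⟩
    have h9 := (mk_le_mk_of_subset hsub).trans (hcol j)
    rw [hR] at h9
    exact absurd h9 (not_le.2 (Order.lt_succ κ))
  choose ρ hρ using hex
  have hinj : Function.Injective
      (fun j : ((⋃ i : R, {j : I | r (e.symm ((i : I), j)) ∉ U} : Set I)ᶜ : Set I) =>
      (⟨r (e.symm (ρ j, j.1)), hρ j⟩ : (U ∩ V : Set G))) := by
    intro j j' h
    have h7 := hr (congrArg Subtype.val h)
    have h8 := e.symm.injective h7
    exact Subtype.ext (Prod.mk.inj h8).2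
  have h10 := mk_le_of_injective hinj
  rw [hgood, hIc] at h10
  -- contradiction with asymptotic disjointness of `U` and `V`
  have h11 := hUV (EA {1}) ⟨{1}, by
    rw [mk_singleton]; exact one_lt_aleph0.trans_le hG, rfl, by simp, fun x y h => h⟩
  have h12 : (U ∩ V : Set G) ⊆ image (EA {1}) U ∩ image (EA {1}) V := by
    rintro g ⟨h13, h14⟩
    exact ⟨⟨g, h13, 1, rfl, by simp⟩, ⟨g, h14, 1, rfl, by simp⟩⟩
  exact absurd (h10.trans (mk_le_mk_of_subset h12)) (not_le.2 h11)

end

end Pool.Agent.Results.MP_08c285_gt.NormalRegular
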